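import Pool.Agent.Helper50_PN.Goo
import Pool.Agent.Helper3_PQX.Stmts

/-!
# Squad PQX: module GPN
-/

set_option autoImplicit false

universe u

open MvPolynomial PGH PGL

namespace Pool.Agent.PQX.H67

open FibreTowers PN

section places

variable {k E : Type u} [Field k] [IsAlgClosed k] [CharZero k] [Field E] [Algebra k E] [FF k E]

/-- the height inequality for curves, with the pattern as a hypothesis -/
theorem curve (hHGT : HgtStmt.{u}) (hCNT : CntStmt.{u}) [CharZero E] {n N : ℕ} (hN : 8 ≤ N)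
    {x : Fin n → E} {a : Fin n → Fin N → k} (hinj : ∀ l, Function.Injective (a l))
    (hxa : ∀ l j, x l ≠ algebraMap k E (a l j)) {sb : Finset (Place k E)}
    (hpat0 : ∀ P ∉ sb, (∀ l, P.Ge 0 (x l)) → ∀ l j, P.ord (x l - algebraMap k E (a l j)) = 1 →
      ∃ l' j', (l', j') ≠ (l, j) ∧ P.Ge 1 (x l' - algebraMap k E (a l' j')))
    {D : Derivation ℤ E E} {cp : Place k E → ℕ}
    {sc : Finset (Place k E)} (hDk : ∀ c : k, D (algebraMap k E c) = 0)
    (hDc : ∀ w : E, D w = 0 → ∃ c : k, algebraMap k E c = w)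
    (hcp : ∀ v : Place k E, DGe v D (-(cp v : ℤ))) (hsc : ∀ v ∉ sc, cp v = 0) {K₁ K₂ : ℕ}
    (h4 : 4 ≤ K₁) (h1 : 1 ≤ K₂)
    (hex : ∀ (n' : ℕ) (ι : Fin n' → Fin n), 2 ≤ n' → Function.Injective ι →
      (∀ l, D (x (ι l)) ≠ 0) → ∃ q m₀ m' B : ℕ, m₀ + (6 + n') * m' + 1 ≤ B ∧ B ≤ N * m' ∧
        2 * m₀ + 4 * n' * m' ≤ K₁ ∧ m' ≤ K₂ ∧ ∃ Q : Pol n' N q, Cls.{u} m' (N * m' - B) m₀ Q ∧
        evP (fun l j => algebraMap k E (a (ι l) j)) (fun l => hs D (x (ι l))) Q ≠ 0) (l : Fin n) :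
    (ht k (x l) : ℤ) ≤ K₁ * ∑ v ∈ sc, (cp v : ℤ) + K₂ * (sb.card : ℤ) := by
  classical
  have hG : (0 : ℤ) ≤ ∑ v ∈ sc, (cp v : ℤ) := Finset.sum_nonneg fun _ _ => by positivity
  have hH : (0 : ℤ) ≤ (sb.card : ℤ) := by positivity
  have hK1 : (4 : ℤ) ≤ K₁ := by exact_mod_cast h4
  have hK2 : (1 : ℤ) ≤ K₂ := by exact_mod_cast h1
  by_cases hl : D (x l) = 0
  · obtain ⟨c, hc⟩ := hDc _ hl
    rw [← hc, ht_const]
    push_cast
    positivity
  set I : Finset (Fin n) := Finset.univ.filter fun l => D (x l) ≠ 0 with hI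
  have hmem : ∀ l, l ∈ I ↔ D (x l) ≠ 0 := fun l => by simp [hI]
  clear_value I
  set ι : Fin I.card → Fin n := fun i => I.orderEmbOfFin rfl i with hι
  have hιinj : Function.Injective ι := (I.orderEmbOfFin rfl).injective
  have hιD : ∀ i, D (x (ι i)) ≠ 0 := by
    exact fun i => (hmem _).1 (I.orderEmbOfFin_mem rfl i)
  obtain ⟨i₁, hi₁⟩ : ∃ i, ι i = l := by
    have h5 : l ∈ Set.range (I.orderEmbOfFin rfl) := by
      rw [Finset.range_orderEmbOfFin]
      exact (hmem l).2 hl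
    exact h5
  have hpat : ∀ P ∉ sb, (∀ i, P.Ge 0 (x (ι i))) → ∀ i j,
      P.ord (x (ι i) - algebraMap k E (a (ι i) j)) = 1 →
      ∃ i' j', (i', j') ≠ (i, j) ∧ P.Ge 1 (x (ι i') - algebraMap k E (a (ι i') j')) := by
    intro P hP hreg i j hij
    have hreg' : ∀ l, P.Ge 0 (x l) := by
      intro l
      by_cases h : D (x l) = 0
      · obtain ⟨c, hc⟩ := hDc _ h
        rw [← hc]
        exact P.ge_const c
      · have h5 : l ∈ Set.range (I.orderEmbOfFin rfl) := by
          rw [Finset.range_orderEmbOfFin]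
          exact (hmem l).2 h
        obtain ⟨i', hi'⟩ := h5
        rw [← hi']
        exact hreg i'
    obtain ⟨l', j', hne, hge⟩ := hpat0 P hP hreg' (ι i) j hij
    have hpos : 0 < P.ord (x l' - algebraMap k E (a l' j')) := by
      rw [P.ge_iff (sub_ne_zero.2 (hxa _ _))] at hge
      omega
    by_cases h : D (x l') = 0
    · exfalso
      obtain ⟨c, hc⟩ := hDc _ h
      rw [← hc, ← map_sub, P.ord_const] at hpos
      exact lt_irrefl _ hpos
    · have h5 : l' ∈ Set.range (I.orderEmbOfFin rfl) := by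
        rw [Finset.range_orderEmbOfFin]
        exact (hmem l').2 h
      obtain ⟨i', hi'⟩ := h5
      refine ⟨i', j', ?_, ?_⟩
      · intro h'
        apply hne
        rw [Prod.mk.injEq] at h'
        rw [← hi', h'.1, h'.2]
      · have h6 : x (ι i') - algebraMap k E (a (ι i') j') ≠ 0 := sub_ne_zero.2 (hxa _ _)
        rw [P.ge_iff h6]
        change 1 ≤ P.ord (x ((I.orderEmbOfFin rfl) i') - algebraMap k E (a ((I.orderEmbOfFin rfl) i') j'))
        rw [hi']
        omega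
  have hsum : (ht k (x l) : ℤ) ≤ ∑ i, (ht k (x (ι i)) : ℤ) := by
    rw [← hi₁]
    exact Finset.single_le_sum (f := fun i => (ht k (x (ι i)) : ℤ)) (fun _ _ => by positivity)
      (Finset.mem_univ i₁)
  refine hsum.trans ?_
  by_cases hn : 2 ≤ I.card
  · obtain ⟨q, m₀, m', B, hB1, hB2, hc1, hc2, Q, hQ, hQ0⟩ := hex I.card ι hn hιinj hιD
    have h5 := hHGT D cp sc sb hDk hsc hcp I.card N q m' B m₀ (fun i => a (ι i))
      (fun i => x (ι i)) (fun i => hinj _) hιD hpat hB1 hB2 Q hQ hQ0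
    refine h5.trans ?_
    have h6 : (2 * (m₀ : ℤ) + 4 * (I.card : ℤ) * m') ≤ K₁ := by exact_mod_cast hc1
    have h7 : (m' : ℤ) ≤ K₂ := by exact_mod_cast hc2
    refine add_le_add (mul_le_mul_of_nonneg_right h6 hG) ?_
    exact mul_le_mul_of_nonneg_right h7 hH
  · have hcard : I.card = 1 := by
      have : 0 < I.card := Fin.pos_iff_nonempty.2 ⟨i₁⟩
      omega
    obtain ⟨sn, hsn, hle⟩ := hCNT D cp sc sb hDk hsc hcp I.card N (fun i => a (ι i))
      (fun i => x (ι i)) (fun i => hinj _) hιD hpat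
    have hempty : sn = ∅ := by
      rw [Finset.eq_empty_iff_forall_notMem]
      intro P hP
      have h5 := (hsn P hP).2.2
      have h6 := Finset.card_le_univ (Is (fun i => a (ι i)) (fun i => x (ι i)) P)
      have h7 : Fintype.card (Fin I.card) = I.card := Fintype.card_fin _
      omega
    rw [hempty, Finset.sum_empty, zero_add] at hle
    have hN' : (8 : ℤ) ≤ N := by exact_mod_cast hN
    have hS : 0 ≤ ∑ i, (ht k (x (ι i)) : ℤ) := Finset.sum_nonneg fun _ _ => by positivity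
    have h8 : (I.card : ℤ) = 1 := by exact_mod_cast hcard
    have h11 : ((N : ℤ) - 6 - (I.card : ℤ)) = (N : ℤ) - 6 - 1 := by rw [h8]
    have h12 : (4 : ℤ) * (I.card : ℤ) = 4 * 1 := by rw [h8]
    rw [h11, h12] at hle
    have h7 : ∑ i, (ht k (x (ι i)) : ℤ) ≤ ((N : ℤ) - 6 - 1) * ∑ i, (ht k (x (ι i)) : ℤ) :=
      le_mul_of_one_le_left hS (by linarith)
    have h9 : (4 : ℤ) * 1 * ∑ v ∈ sc, (cp v : ℤ) ≤ K₁ * ∑ v ∈ sc, (cp v : ℤ) :=
      mul_le_mul_of_nonneg_right (by linarith) hG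
    have h10 : (1 : ℤ) * (sb.card : ℤ) ≤ K₂ * (sb.card : ℤ) :=
      mul_le_mul_of_nonneg_right hK2 hH
    linarith

end places

/-- GPN -/
theorem gpn (hJET : JetStmt.{u}) (hHGT : HgtStmt.{u}) (hCNT : CntStmt.{u})
    (hD : DRatStmt.{u}) : GpnStmt.{u} := by
  classical
  choose kk mm mm' BB hkk hmm' hBB N₁ hN₁ using hJET
  choose hBN Fp hFF hFJ using hN₁
  choose Gp hGG hGQ using fun n' (h : 2 ≤ n') N (hN : N₁ n' h ≤ N) =>
    exists_coeff.{u} (Fp n' h N hN) (hFF n' h N hN)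
  -- the condition for a choice of coordinates
  let cf : ∀ (n N n' : ℕ), (Fin n' → Fin n) → MvPolynomial (Fin n × Fin N) ℤ :=
    fun n N n' ι => if h : ∃ (h2 : 2 ≤ n') (_ : N₁ n' h2 ≤ N), Function.Injective ι then
      rename (fun p : Fin n' × Fin N => (ι p.1, p.2)) (Gp n' h.1 N h.2.1) else 1
  let Nm : ℕ → ℕ := fun n => max 8 (∑ n' ∈ Finset.range (n + 1),
    if h : 2 ≤ n' then N₁ n' h else 0)
  have hNm : ∀ n n' (h : 2 ≤ n'), n' ≤ n → N₁ n' h ≤ Nm n := by
    intro n n' h hn'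
    refine le_trans ?_ (le_max_right _ _)
    have h1 := Finset.single_le_sum (f := fun n' => if h : 2 ≤ n' then N₁ n' h else 0)
      (fun _ _ => Nat.zero_le _)
      (show n' ∈ Finset.range (n + 1) from Finset.mem_range.2 (Nat.lt_succ_of_le hn'))
    simp only [dif_pos h] at h1
    exact h1
  refine ⟨Nm, fun n N => disP n N * ∏ n' ∈ Finset.range (n + 1), ∏ ι : Fin n' → Fin n,
    cf n N n' ι, ?_, ?_⟩
  · intro n N _
    refine mul_ne_zero (disP_ne_zero n N) ?_
    refine Finset.prod_ne_zero_iff.2 fun n' _ => Finset.prod_ne_zero_iff.2 fun ι _ => ?_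
    simp only [cf]
    split_ifs with h
    · rw [Ne, map_eq_zero_iff _ (rename_injective _ ?_)]
      · exact hGG _ _ _ _
      · intro p q hpq
        rw [Prod.mk.injEq] at hpq
        exact Prod.ext (h.2.2 hpq.1) hpq.2
    · exact one_ne_zero
  intro k M _ _ _ _ _ F₀ F T n N x A a hN hx hA hΦ hT hgd hpat l
  have h8 : 8 ≤ N := (le_max_left _ _).trans hN
  rw [map_mul] at hΦ
  have hinj := inj_of_disP a (left_ne_zero_of_mul hΦ)
  have hcf := right_ne_zero_of_mul hΦ
  rw [map_prod, Finset.prod_ne_zero_iff] at hcf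
  have hxi : Function.Injective (algebraMap k M) := (algebraMap k M).injective
  have hxa : ∀ l j, x l - algebraMap k M (a l j) ≠ 0 := by
    intro l j h
    have h1 : Transcendental k (x l) := hx.transcendental l
    rw [sub_eq_zero] at h
    rw [h] at h1
    exact h1 (isAlgebraic_algebraMap _)
  -- the exceptional elements
  have hQ : ∀ (n' : ℕ) (ι : Fin n' → Fin n), ∃ Q : MvPolynomial (Fin n') k,
      aeval (fun i => x (ι i)) Q ≠ 0 ∧
      ∀ (h2 : 2 ≤ n') (hN' : N₁ n' h2 ≤ N), Function.Injective ι →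
        ∀ {E : Type u} [Field E] [Algebra k E] (y : Fin n' → E), aeval y Q =
          aeval (Sum.elim (fun p : Fin n' × Fin N => algebraMap k E (a (ι p.1) p.2)) y)
            (Fp n' h2 N hN') := by
    intro n' ι
    by_cases h : ∃ (h2 : 2 ≤ n') (_ : N₁ n' h2 ≤ N), Function.Injective ι
    · have hn' : n' ≤ n := by
        have := Fintype.card_le_of_injective ι h.2.2
        rwa [Fintype.card_fin, Fintype.card_fin] at this
      have h1 := hcf n' (Finset.mem_range.2 (Nat.lt_succ_of_le hn'))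
      rw [map_prod, Finset.prod_ne_zero_iff] at h1
      have h3 := h1 ι (Finset.mem_univ _)
      simp only [cf] at h3
      rw [dif_pos h, aeval_rename] at h3
      obtain ⟨Q, hQ0, hQe⟩ := hGQ n' h.1 N h.2.1 (fun p : Fin n' × Fin N => a (ι p.1) p.2) h3
      refine ⟨Q, ?_, ?_⟩
      · intro h0
        apply hQ0
        have h4 : AlgebraicIndependent k (fun i => x (ι i)) := hx.comp ι h.2.2
        exact (algebraicIndependent_iff.1 h4) Q h0
      · intro h2 hN' _ E _ _ y
        exact hQe y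
    · refine ⟨1, by simp, ?_⟩
      intro h2 hN' hι
      exact absurd ⟨h2, hN', hι⟩ h
  choose Q hQ0 hQe using hQ
  -- the nonzero elements of `T` in `F`
  set T' : Finset M := hT.toFinset.filter (fun t => t ∈ F ∧ t ≠ 0) with hT'
  have hmT' : ∀ t, t ∈ T' ↔ t ∈ T ∧ t ∈ F ∧ t ≠ 0 := fun t => by
    rw [hT', Finset.mem_filter, Set.Finite.mem_toFinset]
  clear_value T'
  have hbg : ∀ t : T', GoodEl2 k F₀ (t : M) := fun t => hgd t ((hmT' t).1 t.2).2.1
  choose Tb hTb hbT hbB hbR using hbg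
  set U : Set M := (T ∪ Set.range x ∪ Set.range (fun t : T' => (t : M)⁻¹) ∪
    Set.range (fun p : Fin n × Fin N => (x p.1 - algebraMap k M (a p.1 p.2))⁻¹) ∪
    Set.range (fun p : Σ n' : Fin (n + 1), (Fin n' → Fin n) =>
      (aeval (fun i => x (p.2 i)) (Q p.1 p.2))⁻¹)) with hU
  have hUf : U.Finite := by
    refine Set.Finite.union ?_ (Set.finite_range _)
    refine Set.Finite.union ?_ (Set.finite_range _)
    refine Set.Finite.union ?_ (Set.finite_range _)
    exact hT.union (Set.finite_range _)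
  set T0 : Set M := (⋃ i, Tb i) ∪ U with hT0
  have hT0f : T0.Finite := (Set.finite_iUnion (fun i => hTb i)).union hUf
  have hsub : ∀ i, Tb i ⊆ T0 := fun i => (Set.subset_iUnion Tb i).trans Set.subset_union_left
  have hT0' : ∀ a : M, a ∈ U → a ∈ T0 := fun a h => Or.inr h
  have hTT : T ⊆ T0 := fun t ht => hT0' _ (Or.inl (Or.inl (Or.inl (Or.inl ht))))
  have hxT : ∀ l, x l ∈ T0 := fun l => hT0' _ (Or.inl (Or.inl (Or.inl (Or.inr ⟨l, rfl⟩))))
  have hbiT : ∀ t : T', (t : M)⁻¹ ∈ T0 := fun t => hT0' _ (Or.inl (Or.inl (Or.inr ⟨t, rfl⟩)))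
  have hxaT : ∀ l j, (x l - algebraMap k M (a l j))⁻¹ ∈ T0 := fun l j =>
    hT0' _ (Or.inl (Or.inr ⟨(l, j), rfl⟩))
  have hQT : ∀ (n' : ℕ) (ι : Fin n' → Fin n), n' ≤ n →
      (aeval (fun i => x (ι i)) (Q n' ι))⁻¹ ∈ T0 := fun n' ι hn' =>
    hT0' _ (Or.inr ⟨⟨⟨n', Nat.lt_succ_of_le hn'⟩, ι⟩, rfl⟩)
  clear_value U T0
  clear hT0 hU
  -- constants
  set K₁ : ℕ := 4 + ∑ n' ∈ Finset.range (n + 1),
    (if h : 2 ≤ n' then 2 * mm n' h + 4 * n' * mm' n' h else 0) with hK₁
  set K₂ : ℕ := 1 + ∑ n' ∈ Finset.range (n + 1),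
    (if h : 2 ≤ n' then mm' n' h else 0) with hK₂
  have hK1 : ∀ n' (h : 2 ≤ n'), n' ≤ n → 2 * mm n' h + 4 * n' * mm' n' h ≤ K₁ := by
    intro n' h hn'
    have h1 := Finset.single_le_sum
      (f := fun n' => if h : 2 ≤ n' then 2 * mm n' h + 4 * n' * mm' n' h else 0)
      (fun _ _ => Nat.zero_le _)
      (show n' ∈ Finset.range (n + 1) from Finset.mem_range.2 (Nat.lt_succ_of_le hn'))
    simp only [dif_pos h] at h1
    rw [hK₁]
    omega
  have hK2 : ∀ n' (h : 2 ≤ n'), n' ≤ n → mm' n' h ≤ K₂ := by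
    intro n' h hn'
    have h1 := Finset.single_le_sum
      (f := fun n' => if h : 2 ≤ n' then mm' n' h else 0)
      (fun _ _ => Nat.zero_le _)
      (show n' ∈ Finset.range (n + 1) from Finset.mem_range.2 (Nat.lt_succ_of_le hn'))
    simp only [dif_pos h] at h1
    rw [hK₂]
    omega
  have hK4 : 4 ≤ K₁ := by omega
  have hK5 : 1 ≤ K₂ := by omega
  clear_value K₁ K₂
  -- the common part of both estimates
  have key : ∀ (E : Type u) [Field E] [Algebra k E] [FF k E] (D : Derivation ℤ E E)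
      (cp : Place k E → ℕ) (sc : Finset (Place k E)),
      (∀ c : k, D (algebraMap k E c) = 0) → (∀ w : E, D w = 0 → ∃ c : k, algebraMap k E c = w) →
      (∀ v : Place k E, DGe v D (-(cp v : ℤ))) → (∀ v ∉ sc, cp v = 0) →
      ∀ (S : Subalgebra k M), T0 ⊆ (S : Set M) → ∀ φ : S →ₐ[k] E,
      (ht k (ev φ (x l)) : ℤ) ≤
        K₁ * ∑ v ∈ sc, (cp v : ℤ) + K₂ * ∑ t : T', 2 * (ht k (ev φ (t : M)) : ℤ) := by
    intro E _ _ _ D cp sc hDk hDc hcp hsc S hTS φ
    have hch : CharZero E := charZero_of_injective_algebraMap (algebraMap k E).injective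
    have hxS : ∀ l, x l ∈ S := fun l => hTS (hxT l)
    have hbS : ∀ t : T', (t : M) ∈ S := fun t => hTS (hsub t (hbT t))
    have hcS : ∀ c : k, ev φ (algebraMap k M c) = algebraMap k E c := by
      intro c
      rw [ev_mem φ (S.algebraMap_mem c)]
      exact φ.commutes c
    have hsubS : ∀ l j, x l - algebraMap k M (a l j) ∈ S ∧
        ev φ (x l - algebraMap k M (a l j)) = ev φ (x l) - algebraMap k E (a l j) := by
      intro l j
      have h1 : -algebraMap k M (a l j) = algebraMap k M (-(a l j)) := (map_neg _ _).symm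
      refine ⟨sub_mem (hxS l) (S.algebraMap_mem _), ?_⟩
      rw [sub_eq_add_neg, h1, ev_add φ (hxS l) (S.algebraMap_mem _), hcS, map_neg, sub_eq_add_neg]
    have hxaE : ∀ l j, ev φ (x l) ≠ algebraMap k E (a l j) := by
      intro l j
      rw [← sub_ne_zero, ← (hsubS l j).2]
      exact ev_ne_zero φ (hsubS l j).1 (hTS (hxaT l j)) (hxa l j)
    have hb0 : ∀ t : T', ev φ (t : M) ≠ 0 := fun t =>
      ev_ne_zero φ (hbS t) (hTS (hbiT t)) ((hmT' t).1 t.2).2.2
    set sb : Finset (Place k E) :=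
      Finset.univ.biUnion (fun t : T' => (finite_support (L := k) (ev φ (t : M))).toFinset) with hsb
    have hsb1 : ∀ v ∉ sb, ∀ t : T', v.ord (ev φ (t : M)) = 0 := by
      intro v hv t
      by_contra h
      exact hv (Finset.mem_biUnion.2 ⟨t, Finset.mem_univ _,
        (finite_support (L := k) (ev φ (t : M))).mem_toFinset.2 h⟩)
    have hsb2 : (sb.card : ℤ) ≤ ∑ t : T', 2 * (ht k (ev φ (t : M)) : ℤ) := by
      have h1 : sb.card ≤ ∑ t : T', ((finite_support (L := k) (ev φ (t : M))).toFinset).card :=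
        Finset.card_biUnion_le
      calc (sb.card : ℤ) ≤
          ((∑ t : T', ((finite_support (L := k) (ev φ (t : M))).toFinset).card : ℕ) : ℤ) := by
            exact_mod_cast h1
        _ = ∑ t : T', (((finite_support (L := k) (ev φ (t : M))).toFinset.card : ℕ) : ℤ) := by
            push_cast; rfl
        _ ≤ _ := Finset.sum_le_sum fun t _ => DP.card_supp_le (ev φ (t : M))
    clear_value sb
    have hpat0 : ∀ P ∉ sb, (∀ l, P.Ge 0 (ev φ (x l))) → ∀ l j,
        P.ord (ev φ (x l) - algebraMap k E (a l j)) = 1 →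
        ∃ l' j', (l', j') ≠ (l, j) ∧ P.Ge 1 (ev φ (x l') - algebraMap k E (a l' j')) := by
      intro P hP hreg l j hl
      have haA : a l j ∈ A l := by
        have h1 : a l j ∈ (A l : Set k) := by
          rw [hA l]
          exact ⟨j, rfl⟩
        exact h1
      obtain ⟨l', hl', c, hc, hge⟩ := hpat S (hTT.trans hTS) hxS φ P (by
        intro t ht htF ht0
        have h1 := hsb1 P hP ⟨t, (hmT' t).2 ⟨ht, htF, ht0⟩⟩
        have h2 := hb0 ⟨t, (hmT' t).2 ⟨ht, htF, ht0⟩⟩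
        change P.ord (ev φ t) = 0 at h1
        change ev φ t ≠ 0 at h2
        rw [P.ge_iff h2, P.ge_iff h2, h1]
        exact ⟨le_refl _, by omega⟩) hreg l (a l j) haA hl
      have hc' : c ∈ Set.range (a l') := by
        rw [← hA l']
        exact hc
      obtain ⟨j', rfl⟩ := hc'
      refine ⟨l', j', ?_, hge⟩
      intro h
      exact hl' (Prod.ext_iff.1 h).1
    refine (curve hHGT hCNT h8 hinj hxaE hpat0 hDk hDc hcp hsc hK4 hK5 ?_ l).trans
      (add_le_add le_rfl (mul_le_mul_of_nonneg_left hsb2 (by positivity)))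
    intro n' ι h2 hι hDx
    have hn' : n' ≤ n := by
      have := Fintype.card_le_of_injective ι hι
      rwa [Fintype.card_fin, Fintype.card_fin] at this
    have hN' : N₁ n' h2 ≤ N := (hNm n n' h2 hn').trans hN
    refine ⟨kk n' h2, mm n' h2, mm' n' h2, BB n' h2, hBB n' h2, hBN n' h2 N hN', hK1 n' h2 hn',
      hK2 n' h2 hn', ?_⟩
    by_contra hcon
    push Not at hcon
    have h3 := ev_aeval' φ (fun i => x (ι i)) (fun i => hxS (ι i)) (Q n' ι)
    have h4 := ev_ne_zero φ h3.1 (hTS (hQT n' ι hn')) (hQ0 n' ι)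
    apply h4
    rw [h3.2, hQe n' ι h2 hN' hι (fun i => ev φ (x (ι i)))]
    have h5 := hFJ n' h2 N hN' (fun l j => algebraMap k E (a (ι l) j))
      (fun l => hs D (ev φ (x (ι l))))
      (fun l => by rw [(coeff_hs D _).2]; exact hDx l)
      (fun l j => by rw [(coeff_hs D _).1]; exact hxaE (ι l) j)
      (fun Q hQ => hcon Q hQ)
    simp only [(coeff_hs D _).1] at h5
    exact h5
  refine ⟨T0, hT0f, hxT l, ?_, ?_⟩
  · intro E _ _ _ ψ
    have hch : CharZero E := charZero_of_injective_algebraMap (algebraMap k E).injective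
    obtain ⟨t, htr⟩ := FF.exists_transcendental (L := k) (E := E)
    obtain ⟨δ, hδ⟩ := exists_deriv k E htr
    let D : Derivation ℤ E E := δ.restrictScalars ℤ
    have hDk : ∀ c : k, D (algebraMap k E c) = 0 := fun c => δ.map_algebraMap c
    have hPL : PresL k D := fun c => ⟨0, by rw [hDk, map_zero]⟩
    have hDt : D t ≠ 0 := by
      change δ t ≠ 0
      rw [hδ]; exact one_ne_zero
    have hconst : ∀ w, D w = 0 → ∃ c : k, algebraMap k E c = w := by
      intro w hw
      apply not_transcendental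
      intro hwt
      have hal := FF.isAlgebraic hwt
      exact hDt (deriv_zero_of_isAlgebraic_adjoin (AlgHom.id k E) D hDk hw (hal.isAlgebraic t))
    obtain ⟨cp, sc, hsc, hcp⟩ := bounded_poles (L := k) D hPL
    choose Bd hBd using fun i => hbB i E ψ
    refine ⟨(K₁ * ∑ v ∈ sc, (cp v : ℤ) + K₂ * ∑ t, 2 * (Bd t : ℤ)).toNat,
      fun S hTS φ hψ => ?_⟩
    have h1 := key E D cp sc hDk hconst hcp hsc S hTS φ
    have h2 : ∑ t : T', 2 * (ht k (ev φ (t : M)) : ℤ) ≤ ∑ t, 2 * (Bd t : ℤ) := by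
      apply Finset.sum_le_sum
      intro i _
      have := hBd i S ((hsub i).trans hTS) φ (fun t ht => hψ t (hsub i ht))
      omega
    have h3 : (K₂ : ℤ) * ∑ t : T', 2 * (ht k (ev φ (t : M)) : ℤ) ≤ K₂ * ∑ t, 2 * (Bd t : ℤ) :=
      mul_le_mul_of_nonneg_left h2 (by positivity)
    omega
  · intro E _ _ z' hz' htop S hTS φ hF
    obtain ⟨hFF', D, hDk, hDc, hDg⟩ := hD k E z' hz' htop
    have h1 := key E D (fun _ => 0) ∅ hDk hDc (fun v => by simpa using hDg v) (fun _ _ => rfl) S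
      hTS φ
    have h2 : ∀ i : T', ht k (ev φ (i : M)) = 0 := by
      intro i
      obtain ⟨c, hc⟩ := hbR i E z' hz' htop S ((hsub i).trans hTS) φ
        (fun t ht ht0 => hF t (hsub i ht) ht0)
      rw [hc, ht_const]
    simp only [h2] at h1
    simp only [mul_zero, Nat.cast_zero, Finset.sum_const_zero, add_zero] at h1
    obtain ⟨c, hc⟩ := ht_eq_zero_iff (k := k) (w := ev φ (x l)) (by omega)
    exact ⟨c, hc⟩

end Pool.Agent.PQX.H67
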